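import Mathlib

set_option autoImplicit false

namespace Pool.Agent.Results.MP_d4b31a_ag.SmallComponent

open Polynomial

universe u

/-- The numerical semigroup `{0, 13, …, 18, 21, 22, 24} ∪ [26, ∞)`. -/
def inS (n : ℕ) : Prop := n = 0 ∨ (13 ≤ n ∧ n ≤ 18) ∨ n = 21 ∨ n = 22 ∨ n = 24 ∨ 26 ≤ n

/-- The exponents of the canonical ideal `{16, 18, 21, 22} ∪ [29, 40] ∪ [42, ∞)`. -/
def inI (n : ℕ) : Prop := n = 16 ∨ n = 18 ∨ n = 21 ∨ n = 22 ∨ (29 ≤ n ∧ n ≤ 40) ∨ 42 ≤ n

lemma inS_add {a b : ℕ} (ha : inS a) (hb : inS b) : inS (a + b) := by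
  unfold inS at *; omega

lemma inI_add {a b : ℕ} (ha : inS a) (hb : inI b) : inI (a + b) := by
  unfold inS at *; unfold inI at *; omega

lemma inS_of_inI {a : ℕ} (ha : inI a) : inS a := by
  unfold inS; unfold inI at *; omega

section main

variable (k : Type u) [Field k]

/-- The coordinate ring `k[t^s : s ∈ S]`. -/
def AA : Subalgebra k k[X] where
  carrier := {f | ∀ n, ¬ inS n → f.coeff n = 0}
  mul_mem' := by
    intro f g hf hg n hn
    rw [coeff_mul]
    refine Finset.sum_eq_zero (fun x hx => ?_)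
    rw [Finset.HasAntidiagonal.mem_antidiagonal] at hx
    by_cases h1 : inS x.1
    · by_cases h2 : inS x.2
      · exact absurd (hx ▸ inS_add h1 h2) hn
      · rw [hg _ h2, mul_zero]
    · rw [hf _ h1, zero_mul]
  add_mem' := by
    intro f g hf hg n hn
    rw [coeff_add, hf _ hn, hg _ hn, add_zero]
  algebraMap_mem' := by
    intro c n hn
    change (C c : k[X]).coeff n = 0
    rw [coeff_C, if_neg]
    rintro rfl
    exact hn (Or.inl rfl)

lemma mem_AA (f : k[X]) : f ∈ AA k ↔ ∀ n, ¬ inS n → f.coeff n = 0 := Iff.rfl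

/-- The canonical ideal. -/
def II : Ideal (AA k) where
  carrier := {f | ∀ n, ¬ inI n → (f : k[X]).coeff n = 0}
  zero_mem' := by
    intro n _
    simp
  add_mem' := by
    intro f g hf hg n hn
    rw [Subalgebra.coe_add, coeff_add, hf _ hn, hg _ hn, add_zero]
  smul_mem' := by
    intro f g hg n hn
    rw [smul_eq_mul, Subalgebra.coe_mul, coeff_mul]
    refine Finset.sum_eq_zero (fun x hx => ?_)
    rw [Finset.HasAntidiagonal.mem_antidiagonal] at hx
    by_cases h1 : inS x.1
    · by_cases h2 : inI x.2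
      · exact absurd (hx ▸ inI_add h1 h2) hn
      · rw [hg _ h2, mul_zero]
    · rw [f.2 _ h1, zero_mul]

lemma mem_II (f : AA k) : f ∈ II k ↔ ∀ n, ¬ inI n → (f : k[X]).coeff n = 0 := Iff.rfl

def FD : Fin 10 → ℕ := ![0, 13, 14, 15, 17, 24, 26, 27, 28, 41]

lemma FD_inS : ∀ i, inS (FD i) := by
  intro i; fin_cases i <;> (unfold inS; simp [FD])

lemma FD_notI : ∀ i, ¬ inI (FD i) := by
  intro i; fin_cases i <;> (unfold inI; simp [FD])

lemma FD_surj (n : ℕ) (h : inS n) (h' : ¬ inI n) : ∃ i, FD i = n := by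
  have h1 : n = 0 ∨ n = 13 ∨ n = 14 ∨ n = 15 ∨ n = 17 ∨ n = 24 ∨ n = 26 ∨ n = 27 ∨ n = 28 ∨ n = 41 := by
    unfold inS at h; unfold inI at h'; omega
  rcases h1 with h | h | h | h | h | h | h | h | h | h <;> subst h
  · exact ⟨0, rfl⟩
  · exact ⟨1, rfl⟩
  · exact ⟨2, rfl⟩
  · exact ⟨3, rfl⟩
  · exact ⟨4, rfl⟩
  · exact ⟨5, rfl⟩
  · exact ⟨6, rfl⟩
  · exact ⟨7, rfl⟩
  · exact ⟨8, rfl⟩
  · exact ⟨9, rfl⟩

lemma FD_inj : Function.Injective FD := by decide

/-- coefficients at the ten exponents outside the ideal. -/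
noncomputable def cA : AA k →ₗ[k] (Fin 10 → k) :=
  LinearMap.pi (fun i => (lcoeff k (FD i)) ∘ₗ (AA k).val.toLinearMap)

lemma cA_apply (f : AA k) (i : Fin 10) : cA k f i = (f : k[X]).coeff (FD i) := rfl

lemma cA_ker : LinearMap.ker (cA k) = (II k).restrictScalars k := by
  ext f
  rw [LinearMap.mem_ker, Submodule.restrictScalars_mem, mem_II]
  constructor
  · intro h n hn
    by_cases hs : inS n
    · obtain ⟨i, rfl⟩ := FD_surj n hs hn
      rw [← cA_apply, h]; rfl
    · exact f.2 n hs
  · intro h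
    ext i
    rw [cA_apply]
    exact h _ (FD_notI i)

lemma monom_mem (n : ℕ) (hn : inS n) (c : k) : (C c * X ^ n : k[X]) ∈ AA k := by
  intro m hm
  rw [coeff_C_mul, coeff_X_pow, if_neg, mul_zero]
  rintro rfl
  exact hm hn

lemma cA_surj : Function.Surjective (cA k) := by
  intro v
  refine ⟨∑ i, ⟨C (v i) * X ^ (FD i), monom_mem k _ (FD_inS i) _⟩, ?_⟩
  rw [map_sum]
  ext j
  rw [Finset.sum_apply, Finset.sum_eq_single j]
  · rw [cA_apply]
    simp
  · intro i _ hij
    rw [cA_apply]
    change (C (v i) * X ^ (FD i) : k[X]).coeff (FD j) = 0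
    rw [coeff_C_mul, coeff_X_pow, if_neg, mul_zero]
    exact fun h => hij (FD_inj h).symm
  · intro h; exact absurd (Finset.mem_univ _) h

/-- `A/I ≃ k¹⁰`. -/
noncomputable def eQ : (AA k ⧸ II k) ≃ₗ[k] (Fin 10 → k) :=
  (Submodule.Quotient.restrictScalarsEquiv k (II k)).symm ≪≫ₗ
    (Submodule.quotEquivOfEq _ _ (cA_ker k).symm) ≪≫ₗ
    (cA k).quotKerEquivOfSurjective (cA_surj k)

lemma eQ_mk (f : AA k) (i : Fin 10) :
    eQ k (Ideal.Quotient.mk (II k) f) i = (f : k[X]).coeff (FD i) := rfl

/-- the element `t^g` of the ideal. -/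
noncomputable def tg (g : ℕ) (hg : inI g) : II k :=
  ⟨⟨X ^ g, by simpa using monom_mem k g (inS_of_inI hg) 1⟩, by
    intro n hn
    change (X ^ g : k[X]).coeff n = 0
    rw [coeff_X_pow, if_neg]
    rintro rfl
    exact hn hg⟩

/-- the element `t^s` of the ring. -/
noncomputable def ts (s : ℕ) (hs : inS s) : AA k :=
  ⟨X ^ s, by simpa using monom_mem k s hs 1⟩

def gen : Fin 9 → ℕ := ![18, 16, 16, 16, 16, 22, 21, 18, 16]
def idx : Fin 9 → Fin 10 := ![5, 5, 6, 7, 8, 9, 9, 9, 9]

lemma gen_inI : ∀ i, inI (gen i) := by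
  intro i; fin_cases i <;> (unfold inI; simp [gen])

noncomputable def Psi : (II k →ₗ[AA k] (AA k ⧸ II k)) →ₗ[k] (Fin 9 → k) where
  toFun φ := fun i => eQ k (φ (tg k (gen i) (gen_inI i))) (idx i)
  map_add' φ ψ := by
    ext i
    simp
  map_smul' c φ := by
    ext i
    simp

lemma rel (φ : II k →ₗ[AA k] (AA k ⧸ II k)) (g g' s s' : ℕ) (hg : inI g) (hg' : inI g')
    (hs : inS s) (hs' : inS s') (h : g + s = g' + s') (f f' : AA k)
    (hf : Ideal.Quotient.mk (II k) f = φ (tg k g hg)) (hf' : Ideal.Quotient.mk (II k) f' = φ (tg k g' hg'))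
    (p : ℕ) (hp : ¬ inI (p + s)) :
    (f : k[X]).coeff p = if s' ≤ p + s then (f' : k[X]).coeff (p + s - s') else 0 := by
  have h1 : ts k s hs • tg k g hg = ts k s' hs' • tg k g' hg' := by
    apply Subtype.ext
    apply Subtype.ext
    change (X ^ s * X ^ g : k[X]) = X ^ s' * X ^ g'
    rw [← pow_add, ← pow_add]
    congr 1
    omega
  have h2 := congrArg φ h1
  rw [map_smul, map_smul, ← hf, ← hf'] at h2
  have h3 : Ideal.Quotient.mk (II k) (ts k s hs * f) = Ideal.Quotient.mk (II k) (ts k s' hs' * f') := h2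
  rw [Ideal.Quotient.eq, mem_II] at h3
  have h4 := h3 (p + s) hp
  change ((X ^ s * (f : k[X]) - X ^ s' * (f' : k[X]) : k[X])).coeff (p + s) = 0 at h4
  rw [coeff_sub, coeff_X_pow_mul, coeff_X_pow_mul', sub_eq_zero] at h4
  exact h4

lemma Psi_inj (φ : II k →ₗ[AA k] (AA k ⧸ II k)) (h : Psi k φ = 0) : φ = 0 := by
  have hrep : ∀ (g : ℕ) (hg : inI g), ∃ f : AA k, Ideal.Quotient.mk (II k) f = φ (tg k g hg) :=
    fun g hg => Ideal.Quotient.mk_surjective _
  have i16 : inI 16 := by unfold inI; omega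
  have i18 : inI 18 := by unfold inI; omega
  have i21 : inI 21 := by unfold inI; omega
  have i22 : inI 22 := by unfold inI; omega
  obtain ⟨f16, hf16⟩ := hrep 16 i16
  obtain ⟨f18, hf18⟩ := hrep 18 i18
  obtain ⟨f21, hf21⟩ := hrep 21 i21
  obtain ⟨f22, hf22⟩ := hrep 22 i22
  -- the nine coordinates
  have k18_24 : (f18 : k[X]).coeff 24 = 0 := by
    have := congrFun h 0
    change eQ k (φ (tg k 18 _)) 5 = 0 at this
    rw [← hf18, eQ_mk] at this
    exact this
  have k16_24 : (f16 : k[X]).coeff 24 = 0 := by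
    have := congrFun h 1
    change eQ k (φ (tg k 16 _)) 5 = 0 at this
    rw [← hf16, eQ_mk] at this
    exact this
  have k16_26 : (f16 : k[X]).coeff 26 = 0 := by
    have := congrFun h 2
    change eQ k (φ (tg k 16 _)) 6 = 0 at this
    rw [← hf16, eQ_mk] at this
    exact this
  have k16_27 : (f16 : k[X]).coeff 27 = 0 := by
    have := congrFun h 3
    change eQ k (φ (tg k 16 _)) 7 = 0 at this
    rw [← hf16, eQ_mk] at this
    exact this
  have k16_28 : (f16 : k[X]).coeff 28 = 0 := by
    have := congrFun h 4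
    change eQ k (φ (tg k 16 _)) 8 = 0 at this
    rw [← hf16, eQ_mk] at this
    exact this
  have k22_41 : (f22 : k[X]).coeff 41 = 0 := by
    have := congrFun h 5
    change eQ k (φ (tg k 22 _)) 9 = 0 at this
    rw [← hf22, eQ_mk] at this
    exact this
  have k21_41 : (f21 : k[X]).coeff 41 = 0 := by
    have := congrFun h 6
    change eQ k (φ (tg k 21 _)) 9 = 0 at this
    rw [← hf21, eQ_mk] at this
    exact this
  have k18_41 : (f18 : k[X]).coeff 41 = 0 := by
    have := congrFun h 7
    change eQ k (φ (tg k 18 _)) 9 = 0 at this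
    rw [← hf18, eQ_mk] at this
    exact this
  have k16_41 : (f16 : k[X]).coeff 41 = 0 := by
    have := congrFun h 8
    change eQ k (φ (tg k 16 _)) 9 = 0 at this
    rw [← hf16, eQ_mk] at this
    exact this
  -- step lemmas
  have step : ∀ (g g' s s' : ℕ) (hg : inI g) (hg' : inI g') (f f' : AA k)
      (_ : Ideal.Quotient.mk (II k) f = φ (tg k g hg)) (_ : Ideal.Quotient.mk (II k) f' = φ (tg k g' hg'))
      (p : ℕ), inS s → inS s' → g + s = g' + s' → ¬ inI (p + s) →
      ((p + s < s') ∨ ∃ q, p + s = q + s' ∧ (f' : k[X]).coeff q = 0) → (f : k[X]).coeff p = 0 := by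
    intro g g' s s' hg hg' f f' hf hf' p hs hs' h hp hor
    rw [rel k φ g g' s s' hg hg' hs hs' h f f' hf hf' p hp]
    split_ifs with hle
    · rcases hor with hlt | ⟨q, hq, hq0⟩
      · omega
      · rw [hq, Nat.add_sub_cancel]; exact hq0
    · rfl
  have z : ∀ (f : AA k) (q : ℕ), ¬ inS q → (f : k[X]).coeff q = 0 := fun f q hq => f.2 q hq
  have k16_0 : (f16 : k[X]).coeff 0 = 0 := step 16 18 15 13 i16 i18 f16 f18 hf16 hf18 0 (by unfold inS; omega) (by unfold inS; omega) (by norm_num) (by unfold inI; omega) (Or.inr ⟨2, by norm_num, z _ _ (by unfold inS; omega)⟩)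
  have k16_13 : (f16 : k[X]).coeff 13 = 0 := step 16 22 28 22 i16 i22 f16 f22 hf16 hf22 13 (by unfold inS; omega) (by unfold inS; omega) (by norm_num) (by unfold inI; omega) (Or.inr ⟨19, by norm_num, z _ _ (by unfold inS; omega)⟩)
  have k16_14 : (f16 : k[X]).coeff 14 = 0 := step 16 21 27 22 i16 i21 f16 f21 hf16 hf21 14 (by unfold inS; omega) (by unfold inS; omega) (by norm_num) (by unfold inI; omega) (Or.inr ⟨19, by norm_num, z _ _ (by unfold inS; omega)⟩)
  have k16_15 : (f16 : k[X]).coeff 15 = 0 := step 16 21 26 21 i16 i21 f16 f21 hf16 hf21 15 (by unfold inS; omega) (by unfold inS; omega) (by norm_num) (by unfold inI; omega) (Or.inr ⟨20, by norm_num, z _ _ (by unfold inS; omega)⟩)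
  have k16_17 : (f16 : k[X]).coeff 17 = 0 := step 16 18 24 22 i16 i18 f16 f18 hf16 hf18 17 (by unfold inS; omega) (by unfold inS; omega) (by norm_num) (by unfold inI; omega) (Or.inr ⟨19, by norm_num, z _ _ (by unfold inS; omega)⟩)
  have k18_0 : (f18 : k[X]).coeff 0 = 0 := step 18 16 13 15 i18 i16 f18 f16 hf18 hf16 0 (by unfold inS; omega) (by unfold inS; omega) (by norm_num) (by unfold inI; omega) (Or.inl (by norm_num))
  have k18_13 : (f18 : k[X]).coeff 13 = 0 := step 18 16 13 15 i18 i16 f18 f16 hf18 hf16 13 (by unfold inS; omega) (by unfold inS; omega) (by norm_num) (by unfold inI; omega) (Or.inr ⟨11, by norm_num, z _ _ (by unfold inS; omega)⟩)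
  have k18_14 : (f18 : k[X]).coeff 14 = 0 := step 18 16 13 15 i18 i16 f18 f16 hf18 hf16 14 (by unfold inS; omega) (by unfold inS; omega) (by norm_num) (by unfold inI; omega) (Or.inr ⟨12, by norm_num, z _ _ (by unfold inS; omega)⟩)
  have k18_15 : (f18 : k[X]).coeff 15 = 0 := step 18 16 13 15 i18 i16 f18 f16 hf18 hf16 15 (by unfold inS; omega) (by unfold inS; omega) (by norm_num) (by unfold inI; omega) (Or.inr ⟨13, by norm_num, k16_13⟩)
  have k18_17 : (f18 : k[X]).coeff 17 = 0 := step 18 16 24 26 i18 i16 f18 f16 hf18 hf16 17 (by unfold inS; omega) (by unfold inS; omega) (by norm_num) (by unfold inI; omega) (Or.inr ⟨15, by norm_num, k16_15⟩)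
  have k18_26 : (f18 : k[X]).coeff 26 = 0 := step 18 16 15 17 i18 i16 f18 f16 hf18 hf16 26 (by unfold inS; omega) (by unfold inS; omega) (by norm_num) (by unfold inI; omega) (Or.inr ⟨24, by norm_num, k16_24⟩)
  have k18_27 : (f18 : k[X]).coeff 27 = 0 := step 18 16 14 16 i18 i16 f18 f16 hf18 hf16 27 (by unfold inS; omega) (by unfold inS; omega) (by norm_num) (by unfold inI; omega) (Or.inr ⟨25, by norm_num, z _ _ (by unfold inS; omega)⟩)
  have k18_28 : (f18 : k[X]).coeff 28 = 0 := step 18 16 13 15 i18 i16 f18 f16 hf18 hf16 28 (by unfold inS; omega) (by unfold inS; omega) (by norm_num) (by unfold inI; omega) (Or.inr ⟨26, by norm_num, k16_26⟩)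
  have k21_0 : (f21 : k[X]).coeff 0 = 0 := step 21 16 13 18 i21 i16 f21 f16 hf21 hf16 0 (by unfold inS; omega) (by unfold inS; omega) (by norm_num) (by unfold inI; omega) (Or.inl (by norm_num))
  have k21_13 : (f21 : k[X]).coeff 13 = 0 := step 21 16 13 18 i21 i16 f21 f16 hf21 hf16 13 (by unfold inS; omega) (by unfold inS; omega) (by norm_num) (by unfold inI; omega) (Or.inr ⟨8, by norm_num, z _ _ (by unfold inS; omega)⟩)
  have k21_14 : (f21 : k[X]).coeff 14 = 0 := step 21 16 13 18 i21 i16 f21 f16 hf21 hf16 14 (by unfold inS; omega) (by unfold inS; omega) (by norm_num) (by unfold inI; omega) (Or.inr ⟨9, by norm_num, z _ _ (by unfold inS; omega)⟩)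
  have k21_15 : (f21 : k[X]).coeff 15 = 0 := step 21 16 13 18 i21 i16 f21 f16 hf21 hf16 15 (by unfold inS; omega) (by unfold inS; omega) (by norm_num) (by unfold inI; omega) (Or.inr ⟨10, by norm_num, z _ _ (by unfold inS; omega)⟩)
  have k21_17 : (f21 : k[X]).coeff 17 = 0 := step 21 16 24 29 i21 i16 f21 f16 hf21 hf16 17 (by unfold inS; omega) (by unfold inS; omega) (by norm_num) (by unfold inI; omega) (Or.inr ⟨12, by norm_num, z _ _ (by unfold inS; omega)⟩)
  have k21_24 : (f21 : k[X]).coeff 24 = 0 := step 21 16 17 22 i21 i16 f21 f16 hf21 hf16 24 (by unfold inS; omega) (by unfold inS; omega) (by norm_num) (by unfold inI; omega) (Or.inr ⟨19, by norm_num, z _ _ (by unfold inS; omega)⟩)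
  have k21_26 : (f21 : k[X]).coeff 26 = 0 := step 21 18 15 18 i21 i18 f21 f18 hf21 hf18 26 (by unfold inS; omega) (by unfold inS; omega) (by norm_num) (by unfold inI; omega) (Or.inr ⟨23, by norm_num, z _ _ (by unfold inS; omega)⟩)
  have k21_27 : (f21 : k[X]).coeff 27 = 0 := step 21 18 14 17 i21 i18 f21 f18 hf21 hf18 27 (by unfold inS; omega) (by unfold inS; omega) (by norm_num) (by unfold inI; omega) (Or.inr ⟨24, by norm_num, k18_24⟩)
  have k21_28 : (f21 : k[X]).coeff 28 = 0 := step 21 16 13 18 i21 i16 f21 f16 hf21 hf16 28 (by unfold inS; omega) (by unfold inS; omega) (by norm_num) (by unfold inI; omega) (Or.inr ⟨23, by norm_num, z _ _ (by unfold inS; omega)⟩)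
  have k22_0 : (f22 : k[X]).coeff 0 = 0 := step 22 18 13 17 i22 i18 f22 f18 hf22 hf18 0 (by unfold inS; omega) (by unfold inS; omega) (by norm_num) (by unfold inI; omega) (Or.inl (by norm_num))
  have k22_13 : (f22 : k[X]).coeff 13 = 0 := step 22 18 13 17 i22 i18 f22 f18 hf22 hf18 13 (by unfold inS; omega) (by unfold inS; omega) (by norm_num) (by unfold inI; omega) (Or.inr ⟨9, by norm_num, z _ _ (by unfold inS; omega)⟩)
  have k22_14 : (f22 : k[X]).coeff 14 = 0 := step 22 18 13 17 i22 i18 f22 f18 hf22 hf18 14 (by unfold inS; omega) (by unfold inS; omega) (by norm_num) (by unfold inI; omega) (Or.inr ⟨10, by norm_num, z _ _ (by unfold inS; omega)⟩)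
  have k22_15 : (f22 : k[X]).coeff 15 = 0 := step 22 18 13 17 i22 i18 f22 f18 hf22 hf18 15 (by unfold inS; omega) (by unfold inS; omega) (by norm_num) (by unfold inI; omega) (Or.inr ⟨11, by norm_num, z _ _ (by unfold inS; omega)⟩)
  have k22_17 : (f22 : k[X]).coeff 17 = 0 := step 22 16 24 30 i22 i16 f22 f16 hf22 hf16 17 (by unfold inS; omega) (by unfold inS; omega) (by norm_num) (by unfold inI; omega) (Or.inr ⟨11, by norm_num, z _ _ (by unfold inS; omega)⟩)
  have k22_24 : (f22 : k[X]).coeff 24 = 0 := step 22 18 17 21 i22 i18 f22 f18 hf22 hf18 24 (by unfold inS; omega) (by unfold inS; omega) (by norm_num) (by unfold inI; omega) (Or.inr ⟨20, by norm_num, z _ _ (by unfold inS; omega)⟩)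
  have k22_26 : (f22 : k[X]).coeff 26 = 0 := step 22 16 15 21 i22 i16 f22 f16 hf22 hf16 26 (by unfold inS; omega) (by unfold inS; omega) (by norm_num) (by unfold inI; omega) (Or.inr ⟨20, by norm_num, z _ _ (by unfold inS; omega)⟩)
  have k22_27 : (f22 : k[X]).coeff 27 = 0 := step 22 18 14 18 i22 i18 f22 f18 hf22 hf18 27 (by unfold inS; omega) (by unfold inS; omega) (by norm_num) (by unfold inI; omega) (Or.inr ⟨23, by norm_num, z _ _ (by unfold inS; omega)⟩)
  have k22_28 : (f22 : k[X]).coeff 28 = 0 := step 22 18 13 17 i22 i18 f22 f18 hf22 hf18 28 (by unfold inS; omega) (by unfold inS; omega) (by norm_num) (by unfold inI; omega) (Or.inr ⟨24, by norm_num, k18_24⟩)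
  -- all four lifts are in the ideal
  have allz : ∀ (f : AA k), (∀ i, (f : k[X]).coeff (FD i) = 0) → Ideal.Quotient.mk (II k) f = 0 := by
    intro f hf
    apply (eQ k).injective
    rw [map_zero]
    ext i
    rw [eQ_mk]
    exact hf i
  have v16 : φ (tg k 16 i16) = 0 := by
    rw [← hf16]
    apply allz
    intro i
    fin_cases i
    exacts [k16_0, k16_13, k16_14, k16_15, k16_17, k16_24, k16_26, k16_27, k16_28, k16_41]
  have v18 : φ (tg k 18 i18) = 0 := by
    rw [← hf18]
    apply allz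
    intro i
    fin_cases i
    exacts [k18_0, k18_13, k18_14, k18_15, k18_17, k18_24, k18_26, k18_27, k18_28, k18_41]
  have v21 : φ (tg k 21 i21) = 0 := by
    rw [← hf21]
    apply allz
    intro i
    fin_cases i
    exacts [k21_0, k21_13, k21_14, k21_15, k21_17, k21_24, k21_26, k21_27, k21_28, k21_41]
  have v22 : φ (tg k 22 i22) = 0 := by
    rw [← hf22]
    apply allz
    intro i
    fin_cases i
    exacts [k22_0, k22_13, k22_14, k22_15, k22_17, k22_24, k22_26, k22_27, k22_28, k22_41]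
  -- monomials
  have hmon : ∀ (j : ℕ) (hj : inI j), φ (tg k j hj) = 0 := by
    intro j hj
    have key : ∀ (g s : ℕ) (hg : inI g), inS s → j = s + g → φ (tg k g hg) = 0 → φ (tg k j hj) = 0 := by
      intro g s hg hs hjs h0
      have : tg k j hj = ts k s hs • tg k g hg := by
        apply Subtype.ext
        apply Subtype.ext
        change (X ^ j : k[X]) = X ^ s * X ^ g
        rw [← pow_add, hjs]
      rw [this, map_smul, h0, smul_zero]
    have hcase : (inS (j - 16) ∧ 16 ≤ j) ∨ (inS (j - 18) ∧ 18 ≤ j) ∨ (inS (j - 21) ∧ 21 ≤ j) ∨ (inS (j - 22) ∧ 22 ≤ j) := by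
      unfold inS; unfold inI at hj; omega
    rcases hcase with ⟨h1, h2⟩ | ⟨h1, h2⟩ | ⟨h1, h2⟩ | ⟨h1, h2⟩
    · exact key 16 _ i16 h1 (by omega) v16
    · exact key 18 _ i18 h1 (by omega) v18
    · exact key 21 _ i21 h1 (by omega) v21
    · exact key 22 _ i22 h1 (by omega) v22
  -- general elements
  ext x
  have hx : x = ∑ j ∈ ((x : AA k) : k[X]).support.attach,
      (⟨C (((x : AA k) : k[X]).coeff j.1), by
        simpa using monom_mem k 0 (Or.inl rfl) (((x : AA k) : k[X]).coeff j.1)⟩ : AA k) •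
        tg k j.1 (by
          by_contra hn
          exact (Polynomial.mem_support_iff.1 j.2) (x.2 _ hn)) := by
    apply Subtype.ext
    apply Subtype.ext
    rw [Submodule.coe_sum, AddSubmonoidClass.coe_finsetSum]
    change ((x : AA k) : k[X]) = ∑ j ∈ ((x : AA k) : k[X]).support.attach, C (((x : AA k) : k[X]).coeff j.1) * X ^ (j.1)
    rw [Finset.sum_attach ((x : AA k) : k[X]).support (fun j => C (((x : AA k) : k[X]).coeff j) * X ^ j)]
    exact Polynomial.as_sum_support_C_mul_X_pow _
  rw [hx, map_sum, LinearMap.zero_apply]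
  refine Finset.sum_eq_zero (fun j _ => ?_)
  rw [map_smul, hmon, smul_zero]

lemma isIntegral_X : IsIntegral (AA k) (X : k[X]) := by
  refine IsIntegral.of_pow (n := 13) (by norm_num) ?_
  have h13 : inS 13 := by unfold inS; omega
  exact isIntegral_algebraMap (R := AA k) (A := k[X]) (x := ts k 13 h13)

lemma integral_poly : Algebra.IsIntegral (AA k) k[X] := by
  constructor
  intro f
  induction f using Polynomial.induction_on' with
  | add p q hp hq => exact hp.add hq
  | monomial n a =>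
    rw [← C_mul_X_pow_eq_monomial]
    refine IsIntegral.mul ?_ ((isIntegral_X k).pow n)
    have hC : (C a : k[X]) ∈ AA k := by
      simpa using monom_mem k 0 (Or.inl rfl) a
    exact isIntegral_algebraMap (R := AA k) (A := k[X]) (x := ⟨C a, hC⟩)

lemma finite_poly : Module.Finite (AA k) k[X] := by
  have := integral_poly k
  have : Algebra.FiniteType (AA k) k[X] := Algebra.FiniteType.of_restrictScalars_finiteType k (AA k) k[X]
  exact Algebra.IsIntegral.finite

lemma finiteType_AA : Algebra.FiniteType k (AA k) := by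
  have h1 : (⊤ : Subalgebra k k[X]).FG := (inferInstance : Algebra.FiniteType k k[X]).out
  have h2 : (⊤ : Submodule (AA k) k[X]).FG := (finite_poly k).fg_top
  exact ⟨fg_of_fg_of_fg k (AA k) k[X] h1 h2 Subtype.val_injective⟩

lemma not_field : ¬ IsField (AA k) := by
  intro hF
  have h13 : inS 13 := by unfold inS; omega
  have hne : ts k 13 h13 ≠ 0 := by
    intro h0
    have := congrArg (fun f : AA k => (f : k[X]).coeff 13) h0
    change (X ^ 13 : k[X]).coeff 13 = (0 : k[X]).coeff 13 at this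
    simp at this
  obtain ⟨y, hy⟩ := hF.mul_inv_cancel hne
  have := congrArg (fun f : AA k => (f : k[X]).coeff 0) hy
  change (X ^ 13 * (y : k[X])).coeff 0 = (1 : k[X]).coeff 0 at this
  rw [coeff_X_pow_mul'] at this
  simp at this

lemma dimension_one : ringKrullDim (AA k) = 1 := by
  have hint := integral_poly k
  have hle : Ring.KrullDimLE 1 (AA k) := by
    rw [Ring.krullDimLE_one_iff_of_noZeroDivisors]
    intro P hP0 hP
    obtain ⟨Q, -, hQ, hQP⟩ := Ideal.exists_ideal_over_prime_of_isIntegral (S := k[X]) P ⊥ (by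
      intro x hx
      have h1 : x ∈ RingHom.ker (algebraMap (AA k) k[X]) := hx
      have h2 : x = 0 := Subtype.val_injective (by simpa using h1)
      rw [h2]; exact P.zero_mem)
    have hQ0 : Q ≠ ⊥ := by
      rintro rfl
      apply hP0
      rw [eq_bot_iff, ← hQP]
      intro x hx
      have h2 : x = 0 := Subtype.val_injective (by simpa using hx)
      rw [h2]; exact Submodule.zero_mem _
    have hQm : Q.IsMaximal := IsPrime.to_maximal_ideal hQ0
    rw [← hQP]
    exact Ideal.isMaximal_comap_of_isIntegral_of_isMaximal Q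
  apply eq_of_le_of_not_lt ?_ fun h' ↦ not_field k ?_
  · rw [← Nat.cast_one, ← Ring.krullDimLE_iff]
    infer_instance
  · have h'' : ringKrullDim (AA k) ≤ 0 := Order.le_of_lt_succ h'
    rw [← Nat.cast_zero, ← Ring.krullDimLE_iff] at h''
    exact Ring.KrullDimLE.isField_of_isDomain

end main

/-- **A curve whose Hilbert scheme has a component of dimension `< d`.**
For every field `k` there is an integral affine curve `C = Spec A` over `k` (`A` is a domain of finite
type over `k` of Krull dimension one) and a closed subscheme `Z = Spec A/I` of `C` of length `d = 10`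
such that the Zariski tangent space `T_[Z] Hilb^d(C) = Hom_A(I, A/I)` has dimension at most `9 < d`. -/
theorem result (k : Type u) [Field k] :
    ∃ (A : Type u) (_ : CommRing A) (_ : Algebra k A),
      IsDomain A ∧ Algebra.FiniteType k A ∧ ringKrullDim A = 1 ∧
      ∃ I : Ideal A, Module.rank k (A ⧸ I) = 10 ∧
        Module.rank k (I →ₗ[A] (A ⧸ I)) ≤ 9 := by
  refine ⟨AA k, inferInstance, inferInstance, inferInstance, finiteType_AA k, dimension_one k,
    II k, ?_, ?_⟩
  · rw [(eQ k).rank_eq, rank_fin_fun]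
    norm_num
  · have hinj : Function.Injective (Psi k) := by
      rw [← LinearMap.ker_eq_bot, LinearMap.ker_eq_bot']
      exact fun φ h => Psi_inj k φ h
    have := LinearMap.rank_le_of_injective (Psi k) hinj
    rw [rank_fin_fun] at this
    exact_mod_cast this

end Pool.Agent.Results.MP_d4b31a_ag.SmallComponent
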